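import Pool.Agent.Work.MP_8da9ea_nt.GC.Chud
import Pool.Agent.Work.MP_8da9ea_nt.CH.Asm

/-!
# Chudnovsky's theorem for all lattices
-/

set_option autoImplicit false

namespace Pool.Agent.Work.MP_8da9ea_nt.GC

open Pool.Agent.Work.MP_327059_nt.GL Pool.Agent.Work.MP_8da9ea_nt.S
  Pool.Agent.Work.MP_8da9ea_nt.EB Pool.Agent.Work.MP_8da9ea_nt.CH

/-- two of the numbers `2 ζ(1/2)`, `2πi`, `℘(1/2)`, `g₂ / 2` of the lattice `ℤ + ℤ τ` are
algebraically independent -/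
theorem chud (τ : ℂ) (hτ : 0 < τ.im) : ¬ TrLe 1 (th τ 1) :=
  GChud_pf x_Bas x_Val x_Zero (AuxG_pf x_Bas x_Val x_Small x_SiegT)
    Pool.Agent.Work.MP_327059_nt.GL.x_Crit τ 1 hτ one_ne_zero

/-- the field of periods of every lattice has transcendence degree at least two -/
theorem per_two_up (τ : ℂ) (hτ : 0 < τ.im) :
    HasTrdeg (bigField 1 τ (![] : Fin 0 → ℂ) (![] : Fin 0 → ℂ)) 2 := by
  have h3 := chud τ hτ
  unfold TrLe at h3
  push Not at h3
  obtain ⟨e, he⟩ := h3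
  refine CD.hasTrdeg_acl ⟨_, fun i => ?_, he⟩
  have h1 : (1 : ℂ) ≠ 0 := one_ne_zero
  set B := bigField 1 τ (![] : Fin 0 → ℂ) (![] : Fin 0 → ℂ) with hB
  have hB1 : bigField 1 (1 * τ) (![] : Fin 0 → ℂ) (![] : Fin 0 → ℂ) = B := by rw [one_mul]
  have hg2 : gg2 τ ∈ B := by
    have := mul_mem (ofNat_mem (bigField 1 (1 * τ) (![] : Fin 0 → ℂ) (![] : Fin 0 → ℂ)) 60)
      (big_gk4 (![] : Fin 0 → ℂ) (![] : Fin 0 → ℂ) h1 (τ := τ))
    rw [hB1] at this
    exact this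
  have hg3 : gg3 τ ∈ B := by
    have := mul_mem (ofNat_mem (bigField 1 (1 * τ) (![] : Fin 0 → ℂ) (![] : Fin 0 → ℂ)) 140)
      (big_gk6 (![] : Fin 0 → ℂ) (![] : Fin 0 → ℂ) h1 (τ := τ))
    rw [hB1] at this
    exact this
  have het : et τ ∈ B := by
    have := big_et (![] : Fin 0 → ℂ) (![] : Fin 0 → ℂ) h1 (τ := τ)
    rwa [hB1] at this
  have hpi : kap ∈ B := by
    have := big_pi (![] : Fin 0 → ℂ) (![] : Fin 0 → ℂ) h1 hτ
    rwa [hB1] at this
  have he1 : wp 1 τ (1 / 2) ∈ CD.acl B := by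
    refine CD.mem_acl.2 ⟨Polynomial.C 4 * Polynomial.X ^ 3 -
      Polynomial.C (⟨gg2 τ, hg2⟩ : B) * Polynomial.X - Polynomial.C (⟨gg3 τ, hg3⟩ : B), ?_, ?_⟩
    · intro h0
      have h1 := congrArg (fun p : Polynomial B => p.coeff 3) h0
      simp at h1
    · have h2 := rel_e1 hτ
      unfold e1 at h2
      rw [← h2]
      simp only [map_sub, map_mul, map_pow, Polynomial.aeval_C, Polynomial.aeval_X]
      rfl
  have h4 : ∀ i : Fin 4, th τ 1 i ∈ CD.acl B := by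
    intro i
    fin_cases i
    · exact mul_mem (pow_mem (one_mem _) 2) (CD.le_acl _ het)
    · exact mul_mem (one_mem _) (CD.le_acl _ hpi)
    · exact mul_mem (pow_mem (one_mem _) 2) he1
    · exact div_mem (mul_mem (pow_mem (one_mem _) 4) (CD.le_acl _ hg2)) (ofNat_mem _ 2)
  exact h4 (e i)

/-- the field of periods of every lattice has transcendence degree at least two -/
theorem per_two_all (ω₁ ω₂ : ℂ) (him : (ω₂ / ω₁).im ≠ 0) :
    HasTrdeg (bigField 1 (ω₂ / ω₁) (![] : Fin 0 → ℂ) (![] : Fin 0 → ℂ)) 2 := by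
  rcases lt_or_gt_of_ne him with hlt | hgt
  · have h := per_two_up (-(ω₂ / ω₁)) (by simpa using hlt)
    rwa [bigField_neg] at h
  · exact per_two_up _ hgt

end Pool.Agent.Work.MP_8da9ea_nt.GC
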