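import Pool.Agent.Work.MP_8da9ea_nt.CH.Stmts
import Pool.Agent.Work.MP_8da9ea_nt.MovFinal
import Pool.Agent.Work.MP_8da9ea_nt.Bd.B11

/-!
# Lattices with given invariants near a given lattice
-/

set_option autoImplicit false

namespace Pool.Agent.Work.MP_8da9ea_nt.GC

open MvPolynomial Filter Topology Pool.Agent.Work.MP_327059_nt.GL Pool.Agent.Work.MP_8da9ea_nt.S
  Pool.Agent.Work.MP_8da9ea_nt.EB Pool.Agent.Work.MP_8da9ea_nt.CH

/-- `℘(1/2)` for the lattice `ℤ + ℤ τ` -/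
noncomputable def e1 (τ : ℂ) : ℂ := wp 1 τ (1 / 2)

theorem an_e1 {τ : ℂ} (hτ : 0 < τ.im) : AnalyticAt ℂ e1 τ :=
  analyticAt_wp_arc (z := fun _ => 1 / 2) analyticAt_const hτ (half_notMem hτ)

theorem rel_e1 {τ : ℂ} (hτ : 0 < τ.im) : 4 * e1 τ ^ 3 - gg2 τ * e1 τ - gg3 τ = 0 := by
  have h := wpd_sq hτ (half_notMem hτ)
  rw [wpd_half hτ] at h
  unfold e1
  linear_combination -h

theorem ev_im {τ : ℂ} (hτ : 0 < τ.im) : ∀ᶠ x in 𝓝 τ, 0 < x.im :=
  Complex.continuous_im.continuousAt.eventually (lt_mem_nhds hτ)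

/-- a polynomial in `g₂`, `g₃` that vanishes near a point is zero -/
theorem poly_zero_of {τ : ℂ} (hτ : 0 < τ.im) {P : MvPolynomial (Fin 4) ℂ}
    (h : ∀ᶠ x in 𝓝 τ, MvPolynomial.aeval ![x, et x, gg2 x, gg3 x] P = 0) : P = 0 := by
  by_contra hP
  have hc := poly_zeros P hP
  obtain ⟨U, hU, hUo, hUt⟩ := mem_nhds_iff.1 (h.and (ev_im hτ))
  obtain ⟨u, hu1, hu2⟩ := (hc.dense_compl ℂ).exists_mem_open hUo ⟨τ, hUt⟩
  exact hu1 ⟨(hU hu2).2, (hU hu2).1⟩

/-- **Surjectivity near a lattice.** -/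
theorem Loc_pf (τ μ : ℂ) (hτ : 0 < τ.im) (hμ : μ ≠ 0) : ∃ δ : ℝ, 0 < δ ∧ ∀ e H : ℂ,
    ‖e - xe τ μ (1 / 2)‖ < δ → ‖H - μ ^ 4 * gg2 τ / 2‖ < δ → ∃ τ' μ' : ℂ, 0 < τ'.im ∧ μ' ≠ 0 ∧
      xe τ' μ' (1 / 2) = e ∧ μ' ^ 4 * gg2 τ' / 2 = H := by
  have hx0 : xe τ μ (1 / 2) = μ ^ 2 * e1 τ := rfl
  -- the neighbourhoods
  have fin : ∀ W : Set (ℂ × ℂ), W ∈ 𝓝 (xe τ μ (1 / 2), μ ^ 4 * gg2 τ / 2) →
      (∀ e H : ℂ, (e, H) ∈ W → ∃ τ' μ' : ℂ, 0 < τ'.im ∧ μ' ≠ 0 ∧
        xe τ' μ' (1 / 2) = e ∧ μ' ^ 4 * gg2 τ' / 2 = H) → ∃ δ : ℝ, 0 < δ ∧ ∀ e H : ℂ,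
    ‖e - xe τ μ (1 / 2)‖ < δ → ‖H - μ ^ 4 * gg2 τ / 2‖ < δ → ∃ τ' μ' : ℂ, 0 < τ'.im ∧ μ' ≠ 0 ∧
      xe τ' μ' (1 / 2) = e ∧ μ' ^ 4 * gg2 τ' / 2 = H := by
    intro W hW h
    obtain ⟨δ, hδ, hb⟩ := Metric.mem_nhds_iff.1 hW
    refine ⟨δ, hδ, fun e H he hH => h e H (hb ?_)⟩
    rw [Metric.mem_ball, Prod.dist_eq, max_lt_iff, dist_eq_norm, dist_eq_norm]
    exact ⟨he, hH⟩
  by_cases hg : gg2 τ = 0
  · -- the quotient `g₂ / e₁²`
    have hE : e1 τ ≠ 0 := by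
      intro h0
      have h1 := rel_e1 hτ
      rw [h0, hg] at h1
      have h2 : gg3 τ = 0 := by linear_combination -h1
      apply Fx.disc_ne hτ
      rw [hg, h2]
      ring
    have hf : AnalyticAt ℂ (fun x => gg2 x / e1 x ^ 2) τ :=
      (analyticAt_gg2 hτ).div ((an_e1 hτ).pow 2) (pow_ne_zero 2 hE)
    have hU : ∀ᶠ x in 𝓝 τ, 0 < x.im ∧ e1 x ≠ 0 :=
      (ev_im hτ).and ((an_e1 hτ).continuousAt.eventually_ne hE)
    rcases hf.eventually_constant_or_nhds_le_map_nhds with hc | hmap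
    · exfalso
      set c : ℂ := gg2 τ / e1 τ ^ 2 with hcdef
      have h1 : (C ((4 - c) ^ 2) * X 2 ^ 3 - C (c ^ 3) * X 3 ^ 2 : MvPolynomial (Fin 4) ℂ) = 0 := by
        apply poly_zero_of hτ
        filter_upwards [hc, hU] with x hx hx2
        have h2 : gg2 x = c * e1 x ^ 2 := by
          rw [← hx]
          field_simp [hx2.2]
        have h3 := rel_e1 hx2.1
        have h4 : gg3 x = (4 - c) * e1 x ^ 3 := by
          linear_combination -h3 - e1 x * h2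
        simp only [map_sub, map_mul, map_pow, aeval_X, aeval_C, Algebra.algebraMap_self,
          RingHom.id_apply]
        simp only [Matrix.cons_val]
        rw [h4, h2]
        ring
      have h2 := congrArg (MvPolynomial.eval ![0, 0, 1, 0]) h1
      have h3 := congrArg (MvPolynomial.eval ![0, 0, 0, 1]) h1
      simp at h2 h3
      rw [h3] at h2
      norm_num at h2
    · have hW : (fun x => gg2 x / e1 x ^ 2) '' {x | 0 < x.im ∧ e1 x ≠ 0} ∈
          𝓝 (gg2 τ / e1 τ ^ 2) := hmap (image_mem_map hU)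
      have he0 : xe τ μ (1 / 2) ≠ 0 := by
        rw [hx0]
        exact mul_ne_zero (pow_ne_zero 2 hμ) hE
      have hcont : ContinuousAt (fun v : ℂ × ℂ => 2 * v.2 / v.1 ^ 2)
          (xe τ μ (1 / 2), μ ^ 4 * gg2 τ / 2) := by
        refine ContinuousAt.div (by fun_prop) (by fun_prop) ?_
        exact pow_ne_zero 2 he0
      have hval : (fun v : ℂ × ℂ => 2 * v.2 / v.1 ^ 2) (xe τ μ (1 / 2), μ ^ 4 * gg2 τ / 2) =
          gg2 τ / e1 τ ^ 2 := by
        simp only [hx0]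
        field_simp
      have h1 := hcont.preimage_mem_nhds (t := (fun x => gg2 x / e1 x ^ 2) ''
        {x | 0 < x.im ∧ e1 x ≠ 0}) (by
        have h9 := hW
        rw [← hval] at h9
        exact h9)
      have h2 : ∀ᶠ v : ℂ × ℂ in 𝓝 (xe τ μ (1 / 2), μ ^ 4 * gg2 τ / 2), v.1 ≠ 0 :=
        continuousAt_fst.eventually_ne he0
      refine fin _ (inter_mem h1 h2) ?_
      rintro e H ⟨⟨τ', ⟨h3, h4⟩, h5⟩, h6⟩
      obtain ⟨ν, hν⟩ := IsAlgClosed.exists_pow_nat_eq (e / e1 τ') (n := 2) (by norm_num)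
      simp only at h5
      have h6' : e ≠ 0 := h6
      have hν0 : ν ≠ 0 := by
        rintro rfl
        rw [zero_pow two_ne_zero] at hν
        exact div_ne_zero h6' h4 hν.symm
      refine ⟨τ', ν, h3, hν0, ?_, ?_⟩
      · change ν ^ 2 * e1 τ' = e
        rw [hν, div_mul_cancel₀ _ h4]
      · have h7 : ν ^ 4 = (e / e1 τ') ^ 2 := by rw [← hν]; ring
        rw [h7]
        have h8 : gg2 τ' = 2 * H / e ^ 2 * e1 τ' ^ 2 := by
          rw [← h5]
          field_simp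
        rw [h8]
        field_simp
  · -- the quotient `e₁² / g₂`
    have hf : AnalyticAt ℂ (fun x => e1 x ^ 2 / gg2 x) τ :=
      ((an_e1 hτ).pow 2).div (analyticAt_gg2 hτ) hg
    have hU : ∀ᶠ x in 𝓝 τ, 0 < x.im ∧ gg2 x ≠ 0 :=
      (ev_im hτ).and ((analyticAt_gg2 hτ).continuousAt.eventually_ne hg)
    rcases hf.eventually_constant_or_nhds_le_map_nhds with hc | hmap
    · exfalso
      set c : ℂ := e1 τ ^ 2 / gg2 τ with hcdef
      have h1 : (X 3 ^ 2 - C (c * (4 * c - 1) ^ 2) * X 2 ^ 3 : MvPolynomial (Fin 4) ℂ) = 0 := by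
        apply poly_zero_of hτ
        filter_upwards [hc, hU] with x hx hx2
        have h2 : e1 x ^ 2 = c * gg2 x := by
          rw [← hx]
          field_simp [hx2.2]
        have h3 := rel_e1 hx2.1
        have h4 : gg3 x = (4 * c - 1) * gg2 x * e1 x := by
          linear_combination -h3 + 4 * e1 x * h2
        simp only [map_sub, map_mul, map_pow, aeval_X, aeval_C, Algebra.algebraMap_self,
          RingHom.id_apply]
        simp only [Matrix.cons_val]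
        rw [h4]
        linear_combination (4 * c - 1) ^ 2 * gg2 x ^ 2 * h2
      have h3 := congrArg (MvPolynomial.eval ![0, 0, 0, 1]) h1
      simp at h3
    · have hW : (fun x => e1 x ^ 2 / gg2 x) '' {x | 0 < x.im ∧ gg2 x ≠ 0} ∈
          𝓝 (e1 τ ^ 2 / gg2 τ) := hmap (image_mem_map hU)
      have hH0 : μ ^ 4 * gg2 τ / 2 ≠ 0 :=
        div_ne_zero (mul_ne_zero (pow_ne_zero 4 hμ) hg) two_ne_zero
      have hcont : ContinuousAt (fun v : ℂ × ℂ => v.1 ^ 2 / (2 * v.2))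
          (xe τ μ (1 / 2), μ ^ 4 * gg2 τ / 2) := by
        refine ContinuousAt.div (by fun_prop) (by fun_prop) ?_
        exact mul_ne_zero two_ne_zero hH0
      have hval : (fun v : ℂ × ℂ => v.1 ^ 2 / (2 * v.2)) (xe τ μ (1 / 2), μ ^ 4 * gg2 τ / 2) =
          e1 τ ^ 2 / gg2 τ := by
        simp only [hx0]
        field_simp
      have h1 := hcont.preimage_mem_nhds (t := (fun x => e1 x ^ 2 / gg2 x) ''
        {x | 0 < x.im ∧ gg2 x ≠ 0}) (by
        have h9 := hW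
        rw [← hval] at h9
        exact h9)
      have h2 : ∀ᶠ v : ℂ × ℂ in 𝓝 (xe τ μ (1 / 2), μ ^ 4 * gg2 τ / 2), v.2 ≠ 0 :=
        continuousAt_snd.eventually_ne hH0
      refine fin _ (inter_mem h1 h2) ?_
      rintro e H ⟨⟨τ', ⟨h3, h4⟩, h5⟩, h6⟩
      obtain ⟨ν, hν⟩ := IsAlgClosed.exists_pow_nat_eq (2 * H / gg2 τ') (n := 4) (by norm_num)
      simp only at h5
      have h6' : H ≠ 0 := h6
      have hν0 : ν ≠ 0 := by
        rintro rfl
        rw [zero_pow (by norm_num)] at hν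
        exact div_ne_zero (mul_ne_zero two_ne_zero h6') h4 hν.symm
      have h7 : (ν ^ 2 * e1 τ') ^ 2 = e ^ 2 := by
        have h8 : e1 τ' ^ 2 = e ^ 2 / (2 * H) * gg2 τ' := by
          rw [← h5]
          field_simp
        have h9 : (ν ^ 2 * e1 τ') ^ 2 = ν ^ 4 * e1 τ' ^ 2 := by ring
        rw [h9, hν, h8]
        field_simp
      rcases sq_eq_sq_iff_eq_or_eq_neg.1 h7 with h8 | h8
      · refine ⟨τ', ν, h3, hν0, h8, ?_⟩
        rw [hν]
        field_simp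
      · refine ⟨τ', Complex.I * ν, h3, mul_ne_zero Complex.I_ne_zero hν0, ?_, ?_⟩
        · change (Complex.I * ν) ^ 2 * e1 τ' = e
          rw [mul_pow, Complex.I_sq]
          linear_combination -h8
        · have h9 : (Complex.I * ν) ^ 4 = ν ^ 4 := by
            rw [mul_pow, Complex.I_pow_four, one_mul]
          rw [h9, hν]
          field_simp

end Pool.Agent.Work.MP_8da9ea_nt.GC
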