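import Pool.Agent.Work.MP_8da9ea_nt.CH.I_Chud
import Pool.Agent.Work.MP_8da9ea_nt.CH.I_Aux
import Pool.Agent.Work.MP_8da9ea_nt.GC.Loc

/-!
# Chudnovsky's theorem for all lattices, from the auxiliary function, the criterion and the zero
estimate
-/

set_option autoImplicit false

namespace Pool.Agent.Work.MP_8da9ea_nt.GC

open MvPolynomial Filter Topology Pool.Agent.Work.MP_327059_nt.GL Pool.Agent.Work.MP_8da9ea_nt.S
  Pool.Agent.Work.MP_8da9ea_nt.EB Pool.Agent.Work.MP_8da9ea_nt.CH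

open I_Chud in
theorem GChud_pf (hB : S_Bas) (hV : CH.S_Val) (hZ : S_Zero) (hA : S_AuxG) (hC : S_Crit) (τ μ : ℂ)
    (hτ : 0 < τ.im) (hμ : μ ≠ 0) : ¬ TrLe 1 (th τ μ) := by
  intro hTh
  obtain ⟨i₀, C₁, hC₁, hAux⟩ := hA τ μ hτ hμ hTh
  choose A hAdeg hAlen hAval using hV
  set K : ℕ := 2 + 13 * C₁ with hK
  obtain ⟨L₁, hL₁⟩ := hAux K
  obtain ⟨δL, hδL, hLoc⟩ := Loc_pf τ μ hτ hμ
  obtain ⟨C₂, hC₂, hCrit⟩ := hC (Fin 4) 1 (th τ μ) hTh
  have hθ2 : μ * kap ≠ 0 := mul_ne_zero hμ kap_ne_zero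
  set δ : ℝ := min δL ‖μ * kap‖ with hδ
  have hδ0 : 0 < δ := lt_min hδL (norm_pos_iff.2 hθ2)
  set C₃ : ℕ := 3 + 2 * C₁ + 10 * K * (K + 2) + K with hC₃
  obtain ⟨L₂, hL₂⟩ := sz_growth (C₁ * C₂ * C₃ ^ 2) (-Real.log δ + 1)
  set L : ℕ := max L₁ L₂ with hL
  obtain ⟨hg1, hg2, hg3⟩ := hL₂ L (le_max_right _ _)
  obtain ⟨p, hp1, hp2, hp3⟩ := hL₁ L (le_max_left _ _)
  have hsz1 : 1 ≤ sz L := le_trans hg3 (le_sz L)
  set X' : ℕ := C₃ * sz L with hX'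
  set V : ℝ := (L : ℝ) ^ 3 / C₁ with hVdef
  have hC₁' : (1 : ℝ) ≤ C₁ := by exact_mod_cast hC₁
  have hC₃1 : 1 ≤ C₃ := by omega
  have hX1 : 1 ≤ X' := Nat.mul_pos hC₃1 hsz1
  have hX1' : (1 : ℝ) ≤ X' := by exact_mod_cast hX1
  have hXV : C₂ * (X' : ℝ) ^ (1 + 1) ≤ V := by
    rw [hVdef, le_div_iff₀ (by linarith), hX']
    push_cast
    calc _ = (C₁ * C₂ * C₃ ^ 2) * ((sz L : ℕ) : ℝ) ^ 2 := by ring
      _ ≤ _ := hg1
  have hszX : sz L ≤ X' := Nat.le_mul_of_pos_left _ hC₃1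
  -- the set of polynomials
  set PP : Set (MvPolynomial (Fin 4) ℤ) := {P | ∃ n t : ℕ, C₁ * n ≤ L ∧ t ≤ K * L ∧
    P = BB A p i₀ n t} with hPP
  have hnL : ∀ n : ℕ, C₁ * n ≤ L → n ≤ L := by
    intro n hn
    exact le_trans (Nat.le_mul_of_pos_left _ hC₁) hn
  have hPPb : ∀ P ∈ PP, P.totalDegree ≤ X' ∧ len P ≤ Real.exp X' ∧
      ‖aeval (th τ μ) P‖ ≤ Real.exp (-V) := by
    intro P hP
    rcases hP with ⟨n, t, hn, ht, rfl⟩
    · obtain ⟨h1, h2⟩ := size_BB (fun t n a b => ⟨hAdeg t n a b, hAlen t n a b⟩) hg3 K C₁ p i₀ hp1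
        n t (hnL n hn) ht
      have h3 : (3 + 2 * C₁ + 10 * K * (K + 2) + K) * sz L ≤ X' := by
        rw [hX']
      refine ⟨h1.trans h3, h2.trans (Real.exp_le_exp.2 (by exact_mod_cast h3)), ?_⟩
      have h4 := val_eq hB hAval p i₀ τ μ (μ ^ 2 * et τ) (μ * kap) hτ hμ n t
      have h5 := hp3 n t hn ht
      have h6 : th τ μ = ![μ ^ 2 * et τ, μ * kap, xe τ μ (1 / 2), μ ^ 4 * gg2 τ / 2] := rfl
      rw [h6] at h5 ⊢
      rw [h4] at h5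
      exact h5
  obtain ⟨v, hv1, hv2⟩ := hCrit X' V hX1 hXV PP hPPb
  -- the new point is close
  have hclose : ∀ i, ‖v i - th τ μ i‖ < δ := by
    intro i
    refine (hv2 i).trans_lt ?_
    have h1 : -V / (C₂ * (X' : ℝ) ^ 1) ≤ -(sz L : ℝ) := by
      rw [neg_div, neg_le_neg_iff, le_div_iff₀ (by positivity), pow_one]
      have h2 : (sz L : ℝ) ≤ X' := by exact_mod_cast hszX
      calc (sz L : ℝ) * (C₂ * X') ≤ X' * (C₂ * X') :=
            mul_le_mul_of_nonneg_right h2 (by positivity)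
        _ = C₂ * (X' : ℝ) ^ (1 + 1) := by ring
        _ ≤ V := hXV
    calc Real.exp (-V / (C₂ * (X' : ℝ) ^ 1)) ≤ Real.exp (-(sz L : ℝ)) := Real.exp_le_exp.2 h1
      _ ≤ Real.exp (Real.log δ - 1) := Real.exp_le_exp.2 (by linarith)
      _ < Real.exp (Real.log δ) := Real.exp_lt_exp.2 (by linarith)
      _ = δ := Real.exp_log hδ0
  obtain ⟨τ', μ', hτ', hμ', hv_2, hv_3⟩ := hLoc (v 2) (v 3)
    ((hclose 2).trans_le (min_le_left _ _)) ((hclose 3).trans_le (min_le_left _ _))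
  have hv_1 : v 1 ≠ 0 := by
    intro h0
    have h1 := (hclose 1).trans_le (min_le_right _ _)
    have h2 : th τ μ 1 = μ * kap := rfl
    rw [h0, h2, zero_sub, norm_neg] at h1
    exact lt_irrefl _ h1
  have hv : v = ![v 0, v 1, xe τ' μ' (1 / 2), μ' ^ 4 * gg2 τ' / 2] := by
    funext i
    fin_cases i
    · rfl
    · rfl
    · exact hv_2.symm
    · exact hv_3.symm
  -- the new auxiliary polynomial
  obtain ⟨a, b, hab⟩ := hp2 (v i₀)
  have hP0 := auxP_ne p (v i₀) a b hab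
  have hord : ∀ n ≤ L / C₁, ((K * L : ℕ) : ℕ∞) ≤ og τ' μ' (v 0) (v 1) n (auxP p (v i₀)) := by
    intro n hn
    have hn' : C₁ * n ≤ L := by
      rw [mul_comm]
      exact (Nat.le_div_iff_mul_le (by omega)).1 hn
    unfold og
    rw [natCast_le_analyticOrderAt_iff_iteratedDeriv_eq_zero (an_fg hB _ _ hτ' hμ' n p (v i₀))]
    intro t ht
    have h1 := hv1 _ (show BB A p i₀ n t ∈ PP from ⟨n, t, hn', ht.le, rfl⟩)
    have h2 := val_eq hB hAval p i₀ τ' μ' (v 0) (v 1) hτ' hμ' n t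
    rw [← hv] at h2
    rw [h2, h1]
  have hfin := hZ τ' μ' (v 0) (v 1) hτ' hμ' hv_1 (auxP p (v i₀)) L (L / C₁) (K * L) hP0
    (auxP_deg p _ 0) (auxP_deg p _ 1) hord
  -- contradiction
  have h1 : L < C₁ * (L / C₁ + 1) := Nat.lt_mul_div_succ L (by omega)
  set S' := L / C₁ with hS'
  have h2 : (S' + 1) * (K * L) = 2 * L * (S' + 1) + 13 * (C₁ * (S' + 1)) * L := by
    rw [hK]
    ring
  rw [h2] at hfin
  have h3 : 13 * (L + 1) * L ≤ 13 * (C₁ * (S' + 1)) * L :=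
    Nat.mul_le_mul_right _ (Nat.mul_le_mul_left _ h1)
  have h4 : 13 * (L + 1) * L = 13 * L ^ 2 + 13 * L := by ring
  have h5 : 0 < L := hg3
  have h6 : 0 < L ^ 2 := by positivity
  omega

end Pool.Agent.Work.MP_8da9ea_nt.GC
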